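import Pool.Agent.W518.PC.Stmts

/-!
# PC-A and PC-B of project PC (MP_571cb2_ag)
-/

set_option autoImplicit false

open scoped Matrix
open Pool.Agent.W518.PC

namespace Pool.Agent.W358.PC

/-- PC-B. -/
theorem s_B : S_B := by
  intro F K V _ _ _ _ _ _ _ _ _ y hy U U' hUU hyU hS
  classical
  have : FiniteDimensional F V := Module.Finite.trans K V
  let b := Module.finBasis F K
  -- the matrix of multiplication by `y`
  let M : Fin (Module.finrank F K) → Fin (Module.finrank F K) → F := fun j i => b.repr (y * b i) j
  have hM : ∀ i, ∑ j, M j i • b j = y * b i := fun i => b.sum_repr _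
  let Ψ : (Fin (Module.finrank F K) → U) →ₗ[F] (Fin (Module.finrank F K) → U') :=
    { toFun := fun u j => ⟨∑ i, M j i • (u i : V) - y • (u j : V), by
        refine U'.sub_mem (U'.sum_mem fun i _ => U'.smul_mem _ (hUU _ (u i).2)) (hyU _ (u j).2)⟩
      map_add' := by
        intro u v; funext j; apply Subtype.ext
        simp only [Pi.add_apply, Submodule.coe_add, smul_add, Finset.sum_add_distrib]
        abel
      map_smul' := by
        intro c u; funext j; apply Subtype.ext
        simp only [Pi.smul_apply, Submodule.coe_smul, RingHom.id_apply, smul_sub, Finset.smul_sum]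
        congr 1
        · exact Finset.sum_congr rfl fun i _ => smul_comm _ _ _
        · exact smul_comm _ _ _ }
  let Φ : (Fin (Module.finrank F K) → U') →ₗ[F] V :=
    { toFun := fun u => ∑ j, b j • (u j : V)
      map_add' := by
        intro u v
        simp only [Pi.add_apply, Submodule.coe_add, smul_add, Finset.sum_add_distrib]
      map_smul' := by
        intro c u
        simp only [Pi.smul_apply, Submodule.coe_smul, RingHom.id_apply, Finset.smul_sum]
        exact Finset.sum_congr rfl fun i _ => smul_comm _ _ _ }
  have hΦ : ∀ u, Φ u = ∑ j, b j • (u j : V) := fun u => rfl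
  have hΨ : ∀ u j, ((Ψ u j : U') : V) = ∑ i, M j i • (u i : V) - y • (u j : V) := fun u j => rfl
  -- composition is zero
  have hcomp : ∀ u, Φ (Ψ u) = 0 := by
    intro u
    rw [hΦ]
    simp only [hΨ, smul_sub, Finset.sum_sub_distrib, Finset.smul_sum]
    rw [Finset.sum_comm, sub_eq_zero]
    refine Finset.sum_congr rfl fun i _ => ?_
    have h1 : ∀ j, b j • M j i • (u i : V) = (M j i • b j) • (u i : V) := by
      intro j; rw [smul_assoc, smul_comm]
    rw [Finset.sum_congr rfl fun j _ => h1 j, ← Finset.sum_smul, hM, mul_comm, mul_smul]
  -- the generator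
  have hint : IsIntegral F y := IsIntegral.of_finite F y
  have hadj : Algebra.adjoin F {y} = ⊤ := by
    have h1 := IntermediateField.adjoin_simple_toSubalgebra_of_isAlgebraic hint.isAlgebraic
    rw [hy] at h1
    rw [← h1]; rfl
  have hΨinj : Function.Injective Ψ := by
    rw [injective_iff_map_eq_zero]
    intro u hu
    have hu' : ∀ j, y • (u j : V) = ∑ i, M j i • (u i : V) := by
      intro j
      have := hΨ u j
      rw [hu] at this
      exact (sub_eq_zero.mp this.symm).symm
    let S0 : Submodule F V := Submodule.span F (Set.range fun j => (u j : V))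
    have hy0 : ∀ s ∈ S0, y • s ∈ S0 := by
      intro s hs
      induction hs using Submodule.span_induction with
      | mem x hx =>
        obtain ⟨j, rfl⟩ := hx
        simp only
        rw [hu' j]
        exact S0.sum_mem fun i _ => S0.smul_mem _ (Submodule.subset_span ⟨i, rfl⟩)
      | zero => rw [smul_zero]; exact S0.zero_mem
      | add a c _ _ ha hc => rw [smul_add]; exact S0.add_mem ha hc
      | smul r a _ ha => rw [smul_comm]; exact S0.smul_mem _ ha
    have hk : ∀ k : K, ∀ s ∈ S0, k • s ∈ S0 := by
      intro k
      have hkm : k ∈ Algebra.adjoin F {y} := by rw [hadj]; trivial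
      induction hkm using Algebra.adjoin_induction with
      | mem x hx => rw [Set.mem_singleton_iff] at hx; subst hx; exact hy0
      | algebraMap r => intro s hs; rw [algebraMap_smul]; exact S0.smul_mem _ hs
      | add a c _ _ ha hc => intro s hs; rw [add_smul]; exact S0.add_mem (ha s hs) (hc s hs)
      | mul a c _ _ ha hc => intro s hs; rw [mul_smul]; exact ha _ (hc s hs)
    let S : Submodule K V :=
      { carrier := S0
        add_mem' := fun ha hb => S0.add_mem ha hb
        zero_mem' := S0.zero_mem
        smul_mem' := fun k s hs => hk k s hs }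
    have hSU : S = ⊥ := by
      apply hS
      intro s hs
      have : S0 ≤ U := Submodule.span_le.mpr (by rintro _ ⟨j, rfl⟩; exact (u j).2)
      exact this hs
    funext j
    apply Subtype.ext
    have h1 : (u j : V) ∈ S := Submodule.subset_span ⟨j, rfl⟩
    rw [hSU] at h1
    simpa using h1
  -- the range of `Φ`
  have hrange : LinearMap.range Φ = (Submodule.span K (U' : Set V)).restrictScalars F := by
    apply le_antisymm
    · rintro _ ⟨u, rfl⟩
      rw [hΦ]
      exact Submodule.sum_mem _ fun j _ => Submodule.smul_mem (Submodule.span K (U' : Set V)) _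
        (Submodule.subset_span (u j).2)
    · intro v hv
      have hv' : v ∈ Submodule.span K (U' : Set V) := hv
      have hkey : ∀ (k : K) (w : V), w ∈ U' → k • w ∈ LinearMap.range Φ := by
        intro k w hw
        rw [← b.sum_repr k, Finset.sum_smul]
        refine Submodule.sum_mem _ fun j _ => ?_
        rw [smul_assoc]
        refine Submodule.smul_mem _ _ ⟨Pi.single j ⟨w, hw⟩, ?_⟩
        rw [hΦ, Finset.sum_eq_single j]
        · simp
        · intro i _ hij; simp [hij]
        · intro h; exact absurd (Finset.mem_univ _) h
      have hclosed : ∀ (k : K), ∀ w ∈ LinearMap.range Φ, k • w ∈ LinearMap.range Φ := by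
        rintro k _ ⟨u, rfl⟩
        rw [hΦ, Finset.smul_sum]
        refine Submodule.sum_mem _ fun j _ => ?_
        rw [smul_smul]
        exact hkey _ _ (u j).2
      induction hv' using Submodule.span_induction with
      | mem x hx => simpa using hkey 1 x hx
      | zero => exact Submodule.zero_mem _
      | add a c _ _ ha hc => exact Submodule.add_mem _ (ha ‹_›) (hc ‹_›)
      | smul r a _ ha => exact hclosed r a (ha ‹_›)
  have h1 : Module.finrank F (LinearMap.range Φ) + Module.finrank F (LinearMap.ker Φ) =
      Module.finrank F (Fin (Module.finrank F K) → U') := LinearMap.finrank_range_add_finrank_ker Φ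
  have h2 : Module.finrank F (Fin (Module.finrank F K) → U) ≤ Module.finrank F (LinearMap.ker Φ) := by
    have h3 : LinearMap.range Ψ ≤ LinearMap.ker Φ := by
      rintro _ ⟨u, rfl⟩; exact hcomp u
    rw [← LinearMap.finrank_range_of_inj hΨinj]
    exact Submodule.finrank_mono h3
  have h3 : Module.finrank F (LinearMap.range Φ) =
      Module.finrank F K * Module.finrank K (Submodule.span K (U' : Set V)) := by
    rw [hrange, Module.finrank_mul_finrank]
    rfl
  rw [Module.finrank_pi_fintype] at h1 h2
  simp only [Finset.sum_const, Finset.card_univ, Fintype.card_fin, smul_eq_mul] at h1 h2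
  have hpos : 0 < Module.finrank F K := Module.finrank_pos
  rw [h3] at h1
  nlinarith [h1, h2, hpos]

open Polynomial in
/-- PC-A. -/
theorem s_A : S_A := by
  intro k F V _ _ _ _ _ _ _ z hz hfrac W hfin hmono hzW hsat t
  classical
  have hmono' : ∀ (n : ℕ) (s : ℤ), W s ≤ W (s + n) := by
    intro n
    induction n with
    | zero => intro s; simp
    | succ n ih =>
      intro s
      refine (ih s).trans ?_
      have := hmono (s + n)
      rwa [add_assoc] at this
  have hzpow : ∀ (n : ℕ) (s : ℤ), ∀ w ∈ W s, z ^ n • w ∈ W (s + n) := by
    intro n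
    induction n with
    | zero => intro s w hw; simpa using hw
    | succ n ih =>
      intro s w hw
      rw [pow_succ', mul_smul]
      have := hzW _ _ (ih s w hw)
      rwa [add_assoc] at this
  -- complement
  obtain ⟨C', hC'⟩ := exists_isCompl (W t)
  let C : Submodule k V := C' ⊓ W (t + 1)
  have hCle : C ≤ W (t + 1) := inf_le_right
  have hCinf : W t ⊓ C = ⊥ := by
    rw [eq_bot_iff]
    exact le_trans (inf_le_inf_left _ inf_le_left) hC'.inf_eq_bot.le
  have hCsup : W t ⊔ C = W (t + 1) := by
    change W t ⊔ C' ⊓ W (t + 1) = W (t + 1)
    rw [← sup_inf_assoc_of_le C' (hmono t), hC'.sup_eq_top, top_inf_eq]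
  have hCfin : FiniteDimensional k C := by
    have := hfin (t + 1)
    exact Submodule.finiteDimensional_of_le hCle
  have hWfin := hfin t
  have hdim : Module.finrank k (W (t + 1)) = Module.finrank k (W t) + Module.finrank k C := by
    have := Submodule.finrank_sup_add_finrank_inf_eq (W t) C
    rw [hCsup, hCinf, finrank_bot] at this
    exact this
  -- (i)
  have hdesc : ∀ (m : ℕ) (d : V), d ∈ W (t + 1) → z ^ m • d ∈ W (t + m) → d ∈ W t := by
    intro m
    induction m with
    | zero => intro d _ h; simpa using h
    | succ m ih =>
      intro d hd h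
      apply ih d hd
      have h1 : z ^ m • d ∈ W (t + m + 1) := by
        have := hzpow m _ d hd
        rwa [add_right_comm] at this
      refine hsat _ _ h1 ?_
      rw [smul_smul, ← pow_succ']
      push_cast at h
      rwa [← add_assoc] at h
  have hrel : ∀ (N : ℕ) (d : ℕ → V), (∀ i, d i ∈ C) →
      ∑ i ∈ Finset.range N, z ^ i • d i = 0 → ∀ i < N, d i = 0 := by
    intro N
    induction N with
    | zero => intro d _ _ i hi; omega
    | succ N ih =>
      intro d hd hs
      rw [Finset.sum_range_succ] at hs
      have hN : d N = 0 := by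
        have h1 : z ^ N • d N = -∑ i ∈ Finset.range N, z ^ i • d i := by
          rw [eq_neg_iff_add_eq_zero, add_comm]; exact hs
        have h2 : z ^ N • d N ∈ W (t + N) := by
          rw [h1]
          refine Submodule.neg_mem _ (Submodule.sum_mem _ fun i hi => ?_)
          rw [Finset.mem_range] at hi
          have h3 := hzpow i _ _ (hCle (hd i))
          have h4 := hmono' (N - (i + 1)) _ h3
          have h5 : t + 1 + (i : ℤ) + ((N - (i + 1) : ℕ) : ℤ) = t + N := by omega
          rwa [h5] at h4
        have h3 := hdesc N _ (hCle (hd N)) h2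
        have h4 : d N ∈ W t ⊓ C := ⟨h3, hd N⟩
        rwa [hCinf, Submodule.mem_bot] at h4
      rw [hN, smul_zero, add_zero] at hs
      intro i hi
      rcases Nat.lt_succ_iff_lt_or_eq.mp hi with h | h
      · exact ih d hd hs i h
      · rw [h]; exact hN
  have haez : ∀ p : Polynomial k, aeval z p = 0 → p = 0 := by
    intro p hp
    by_contra hne
    exact hz ⟨p, hne, hp⟩
  let b := Module.finBasis k C
  have hpoly : ∀ P : Fin (Module.finrank k C) → Polynomial k,
      ∑ i, aeval z (P i) • (b i : V) = 0 → ∀ i, P i = 0 := by
    intro P hP
    let N := (Finset.univ.sup fun i => (P i).natDegree) + 1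
    have hdeg : ∀ i, (P i).natDegree < N := fun i =>
      Nat.lt_succ_of_le (Finset.le_sup (f := fun i => (P i).natDegree) (Finset.mem_univ i))
    let d : ℕ → V := fun m => ∑ i, (P i).coeff m • (b i : V)
    have hd : ∀ m, d m ∈ C := fun m => C.sum_mem fun i _ => C.smul_mem _ (b i).2
    have hsum : ∑ m ∈ Finset.range N, z ^ m • d m = 0 := by
      rw [← hP]
      simp only [d, Finset.smul_sum]
      rw [Finset.sum_comm]
      refine Finset.sum_congr rfl fun i _ => ?_
      rw [aeval_eq_sum_range' (hdeg i), Finset.sum_smul]
      refine Finset.sum_congr rfl fun m _ => ?_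
      rw [smul_assoc, smul_comm]
    have hz0 := hrel N d hd hsum
    intro i
    ext m
    rw [coeff_zero]
    by_cases hm : m < N
    · have h1 : d m = 0 := hz0 m hm
      have h2 : ∑ i, (P i).coeff m • b i = 0 := by
        apply Subtype.ext
        rw [Submodule.coe_sum]
        exact h1
      exact (Fintype.linearIndependent_iff.mp b.linearIndependent _ h2 i)
    · exact coeff_eq_zero_of_natDegree_lt (lt_of_lt_of_le (hdeg i) (not_lt.mp hm))
  have hindep : LinearIndependent F (fun i => (b i : V)) := by
    rw [Fintype.linearIndependent_iff]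
    intro g hg
    choose p q hq hpq using fun i => hfrac (g i)
    have hP : ∀ i, p i * ∏ j ∈ Finset.univ.erase i, q j = 0 := by
      apply hpoly
      have h1 : ∀ i, aeval z (p i * ∏ j ∈ Finset.univ.erase i, q j) =
          aeval z (∏ j, q j) * g i := by
        intro i
        rw [map_mul, ← hpq i, mul_assoc, ← map_mul, Finset.mul_prod_erase _ _ (Finset.mem_univ i),
          mul_comm]
      simp only [h1, mul_smul]
      rw [← Finset.smul_sum, hg, smul_zero]
    intro i
    rcases mul_eq_zero.mp (hP i) with h | h
    · have h1 := hpq i
      rw [h, map_zero] at h1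
      rcases mul_eq_zero.mp h1 with h2 | h2
      · exact h2
      · exact absurd (haez _ h2) (hq i)
    · rw [Finset.prod_eq_zero_iff] at h
      obtain ⟨j, _, hj⟩ := h
      exact absurd hj (hq j)
  -- (ii)
  have hspan : Submodule.span F (W (t + 1) : Set V) = Submodule.span F (Set.range fun i => (b i : V)) := by
    let M := Submodule.span F (Set.range fun i => (b i : V))
    have hCM : ∀ c ∈ C, c ∈ M := by
      intro c hc
      have h1 : (⟨c, hc⟩ : C) = ∑ i, b.repr ⟨c, hc⟩ i • b i := (b.sum_repr _).symm
      have h2 : c = ∑ i, b.repr ⟨c, hc⟩ i • (b i : V) := by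
        have := congrArg (Subtype.val) h1
        rw [Submodule.coe_sum] at this
        exact this
      rw [h2]
      refine Submodule.sum_mem _ fun i _ => ?_
      rw [← algebraMap_smul F]
      exact Submodule.smul_mem _ _ (Submodule.subset_span ⟨i, rfl⟩)
    -- for `a ∈ W t`, `z a ∈ W t + C`
    have hstep : ∀ a ∈ W t, ∃ a' ∈ W t, z • a - a' ∈ M := by
      intro a ha
      have h1 := hzW t a ha
      rw [← hCsup, Submodule.mem_sup] at h1
      obtain ⟨a', ha', c, hc, h2⟩ := h1
      refine ⟨a', ha', ?_⟩
      rw [← h2, add_sub_cancel_left]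
      exact hCM c hc
    -- polynomials
    have hpolyW : ∀ (p : Polynomial k) (a : V), a ∈ W t → ∃ a' ∈ W t, aeval z p • a - a' ∈ M := by
      intro p
      induction p using Polynomial.induction_on with
      | C r =>
        intro a ha
        refine ⟨r • a, (W t).smul_mem _ ha, ?_⟩
        rw [aeval_C, algebraMap_smul, sub_self]
        exact M.zero_mem
      | add p q hp hq =>
        intro a ha
        obtain ⟨a1, h1, h2⟩ := hp a ha
        obtain ⟨a2, h3, h4⟩ := hq a ha
        refine ⟨a1 + a2, (W t).add_mem h1 h3, ?_⟩
        have : aeval z (p + q) • a - (a1 + a2) = (aeval z p • a - a1) + (aeval z q • a - a2) := by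
          rw [map_add, add_smul]; abel
        rw [this]
        exact M.add_mem h2 h4
      | monomial n r ih =>
        intro a ha
        obtain ⟨a1, h1, h2⟩ := ih a ha
        obtain ⟨a2, h3, h4⟩ := hstep a1 h1
        refine ⟨a2, h3, ?_⟩
        have : aeval z (Polynomial.C r * X ^ (n + 1)) • a - a2 =
            z • (aeval z (Polynomial.C r * X ^ n) • a - a1) + (z • a1 - a2) := by
          simp only [map_mul, map_pow, aeval_X, aeval_C]
          rw [smul_sub, smul_smul, pow_succ]
          have : z * (algebraMap k F r * z ^ n) = algebraMap k F r * (z ^ n * z) := by ring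
          rw [this]; abel
        rw [this]
        exact M.add_mem (M.smul_mem _ h2) h4
    have hWM : ∀ a ∈ W t, a ∈ M := by
      intro a ha
      by_contra hne
      -- the map from polynomials to the image of `W t` in the quotient is injective
      let N : Submodule k (V ⧸ M) := (W t).map ((M.mkQ).restrictScalars k)
      have hNfin : FiniteDimensional k N := by
        change FiniteDimensional k ((W t).map ((M.mkQ).restrictScalars k))
        infer_instance
      have hmem : ∀ p : Polynomial k, M.mkQ (aeval z p • a) ∈ N := by
        intro p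
        obtain ⟨a', h1, h2⟩ := hpolyW p a ha
        refine ⟨a', h1, ?_⟩
        change M.mkQ a' = M.mkQ _
        symm
        rw [← sub_eq_zero, ← map_sub]
        exact (Submodule.Quotient.mk_eq_zero M).mpr h2
      let g : Polynomial k →ₗ[k] N :=
        { toFun := fun p => ⟨M.mkQ (aeval z p • a), hmem p⟩
          map_add' := by
            intro p q; apply Subtype.ext
            simp only [Submodule.coe_add, map_add, add_smul]
          map_smul' := by
            intro r p; apply Subtype.ext
            simp only [Submodule.coe_smul, RingHom.id_apply, map_smul]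
            rw [smul_assoc] }
      have hg : Function.Injective g := by
        rw [injective_iff_map_eq_zero]
        intro p hp
        by_contra hpne
        have h1 : M.mkQ (aeval z p • a) = 0 := congrArg Subtype.val hp
        have h2 : aeval z p • a ∈ M := (Submodule.Quotient.mk_eq_zero M).mp h1
        have h3 : aeval z p ≠ 0 := fun h => hpne (haez p h)
        have h4 := M.smul_mem (aeval z p)⁻¹ h2
        rw [smul_smul, inv_mul_cancel₀ h3, one_smul] at h4
        exact hne h4
      have := Module.Finite.of_injective g hg
      exact Polynomial.not_finite this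
    apply le_antisymm
    · rw [Submodule.span_le]
      intro w hw
      have hw' : w ∈ W t ⊔ C := by rw [hCsup]; exact hw
      obtain ⟨a, ha, c, hc, rfl⟩ := Submodule.mem_sup.mp hw'
      exact M.add_mem (hWM a ha) (hCM c hc)
    · refine Submodule.span_mono ?_
      rintro _ ⟨i, rfl⟩
      exact hCle (b i).2
  rw [hspan, finrank_span_eq_card hindep, Fintype.card_fin, hdim, add_comm]

end Pool.Agent.W358.PC
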