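import Pool.Agent.W518.PC.Stmts

/-!
# PC-K of project PC (MP_571cb2_ag): small facts on bundles
-/

set_option autoImplicit false

open scoped WithZero Matrix
open IntermediateField
open Pool.Agent.Helper395.CS hiding genus
open Pool.Agent.Helper395.BC
open Pool.Agent.W518.PC

namespace Pool.Agent.W358.PC

/-- PC-K1. -/
theorem s_K1 : S_K1 := by
  intro K _ _ hK n m E F j hj μ hE m' F' j' hm' hj'
  refine hE m' F' (j ∘ₗ j') hm' ⟨?_, ?_⟩
  · rw [LinearMap.coe_comp]
    exact hj.injective.comp hj'.injective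
  · intro v s
    rw [hj'.stalk, hj.stalk]; rfl

/-- PC-K2. -/
theorem s_K2 : S_K2 := by
  intro K _ _ hK n E R μ hE m F j hm hj
  have h1 : IsSubbundle (btw F (linv R)) E j := by
    refine ⟨hj.injective, fun v s => ?_⟩
    rw [mem_btw, hj.stalk, mem_btw, map_smul, smul_smul]
    have h2 : (((linv R).frame v : Kˣ) : K)⁻¹ = (R.frame v : K) := by
      change ((((R.frame v)⁻¹ : Kˣ)) : K)⁻¹ = _
      rw [Units.val_inv_eq_inv_val, inv_inv]
    rw [h2, inv_mul_cancel₀ (R.frame v).ne_zero, one_smul]
  have h2 := hE m _ j hm h1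
  rw [btw_degree, linv_degree] at h2
  push_cast at h2
  linarith

/-- PC-K3. -/
theorem s_K3 : S_K3 := by
  intro K _ _ hK n E μ hE hμ
  rw [eq_bot_iff]
  intro s hs
  rw [Submodule.mem_bot]
  by_contra hne
  let j : (Fin 1 → K) →ₗ[K] (Fin n → K) :=
    { toFun := fun x => x 0 • s
      map_add' := fun x y => by rw [Pi.add_apply, add_smul]
      map_smul' := fun c x => by rw [Pi.smul_apply, smul_eq_mul, mul_smul, RingHom.id_apply] }
  have hjinj : Function.Injective j := by
    intro x y hxy
    have h1 : x 0 • s = y 0 • s := hxy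
    have h2 : x 0 = y 0 := by
      have h3 : (x 0 - y 0) • s = 0 := by rw [sub_smul, h1, sub_self]
      rcases smul_eq_zero.mp h3 with h | h
      · exact sub_eq_zero.mp h
      · exact absurd h hne
    funext i
    rw [Subsingleton.elim i 0]; exact h2
  obtain ⟨F, hF⟩ := exists_sub hK E j hjinj
  have h1 := hE 1 F j one_pos hF
  have h2 : 0 ≤ F.degree := by
    refine degree_nonneg hK F 1 fun l v => ?_
    rw [hF.stalk]
    have h3 : j (fun i => (1 : GL (Fin 1) K).1 i l) = s := by
      change (1 : GL (Fin 1) K).1 0 l • s = s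
      rw [Subsingleton.elim l 0, Units.val_one, Matrix.one_apply_eq, one_smul]
    rw [h3]
    exact hs v
  have h3 : (0 : ℝ) ≤ F.degree := by exact_mod_cast h2
  push_cast at h1
  linarith

/-- PC-K4. -/
theorem s_K4 : S_K4 := by
  intro K _ _ hK n E μ hE hdeg m F j hm hj
  have hmn : m ≤ n := by
    have := LinearMap.finrank_le_finrank_of_injective hj.injective
    simpa using this
  obtain ⟨q, hq⟩ : ∃ q, n = q + m := ⟨n - m, by omega⟩
  obtain ⟨S, jS, hS, h1⟩ := bdual_sub hK hj hq
  have h2 : (S.degree : ℝ) ≤ μ * q := by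
    rcases Nat.eq_zero_or_pos q with h | h
    · subst h
      rw [bundle_zero_degree]; simp
    · exact hE q S jS h hS
  have h3 : (F.degree : ℝ) ≤ S.degree - E.degree := by exact_mod_cast h1
  have h4 : (n : ℝ) = q + m := by rw [hq]; push_cast; ring
  rw [hdeg, h4] at h3
  linarith

/-- PC-K5. -/
theorem s_K5 : S_K5 := by
  intro K _ _ hK n E U hU
  obtain ⟨j, hj, hr⟩ := exists_param U rfl
  obtain ⟨F, hF⟩ := exists_sub hK E j hj
  refine ⟨F, j, hF, ?_⟩
  let f : F.sections →ₗ[ℂ] E.sections :=
    { toFun := fun x => ⟨j x, fun v => (hF.stalk v _).1 (x.2 v)⟩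
      map_add' := fun x y => Subtype.ext (by simp)
      map_smul' := fun c x => Subtype.ext ((j.restrictScalars ℂ).map_smul c x) }
  have hf : Function.Bijective f := by
    constructor
    · intro x y hxy
      exact Subtype.ext (hj (congrArg Subtype.val hxy))
    · intro s
      have h1 := hU _ s.2
      rw [← hr] at h1
      obtain ⟨x, hx⟩ := h1
      refine ⟨⟨x, fun v => ?_⟩, Subtype.ext hx⟩
      rw [hF.stalk, hx]
      exact s.2 v
  exact (LinearEquiv.ofBijective f hf).finrank_eq

/-- PC-K6. -/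
theorem s_K6 : S_K6 := by
  intro K _ _ hK hg n E
  ext f
  refine forall_congr' fun v => ?_
  have h0 := frame_pos (can hK hg) v
  rw [mem_btw, mem_bdual]
  refine forall₂_congr fun s _ => ?_
  have h1 : ∑ i, (((can hK hg).frame v : K)⁻¹ • f) i * s i =
      ((can hK hg).frame v : K)⁻¹ * ∑ i, f i * s i := by
    rw [Finset.mul_sum]
    exact Finset.sum_congr rfl fun i _ => by rw [Pi.smul_apply, smul_eq_mul]; ring
  rw [h1, map_mul, map_inv₀, inv_mul_le_iff₀ h0, mul_one]
  rfl

end Pool.Agent.W358.PC
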