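import Pool.Agent.W518.PC.Stmts2

/-!
# PC-N1 of project PC (MP_571cb2_ag)
-/

set_option autoImplicit false

open scoped WithZero Matrix
open IntermediateField
open Pool.Agent.Helper395.CS hiding genus
open Pool.Agent.Helper395.BC
open Pool.Agent.W518.PC

namespace Pool.Agent.W358.PC

open IsDedekindDomain in
/-- PC-N1. -/
theorem s_N1 : S_N1 := by
  intro K _ _ hK δ z y hz hδ hgen f hfm hfd hfy φ hφ
  have hfin := hK.finiteDimensional hz
  refine setup hK hz _ ?_
  intro i1 i2 hX hae i3 i4 i5 i6 i7 i8 i9
  -- `φ` is integral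
  obtain ⟨b, hb⟩ : φ ∈ (algebraMap (BB K) K).range := by
    apply HeightOneSpectrum.mem_integers_of_valuation_le_one K φ
    intro P
    have h1 := above_X P
    rw [hX] at h1
    exact hφ (above P) h1
  -- `y` is integral
  have hev : Polynomial.eval₂ (algebraMap (Polynomial ℂ) K) y f = 0 := by
    have h1 : (Polynomial.aeval z : Polynomial ℂ →ₐ[ℂ] K).toRingHom = algebraMap (Polynomial ℂ) K := by
      apply RingHom.ext
      intro p
      exact (hae p).symm
    rw [← h1]
    exact hfy
  have hyint : IsIntegral (Polynomial ℂ) y := ⟨f, hfm, hev⟩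
  let x : BB K := ⟨y, hyint⟩
  have hx : algebraMap (BB K) K x = y := rfl
  have hfx : Polynomial.aeval x f = 0 := by
    apply Subtype.ext
    change algebraMap (BB K) K (Polynomial.aeval x f) = algebraMap (BB K) K 0
    rw [← Polynomial.aeval_algebraMap_apply, hx, map_zero]
    exact hev
  have hxint : IsIntegral (Polynomial ℂ) x := ⟨f, hfm, hfx⟩
  have hcz : CharZero ℂ⟮z⟯ := F_charZero ℂ⟮z⟯
  have hsep : Algebra.IsSeparable ℂ⟮z⟯ K := inferInstance
  have hyK : IsIntegral ℂ⟮z⟯ y := IsIntegral.of_finite _ _
  -- the minimal polynomial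
  have hmin : minpoly (Polynomial ℂ) x = f := by
    have h1 : minpoly (Polynomial ℂ) x ∣ f := minpoly.isIntegrallyClosed_dvd hxint hfx
    have h2 : (minpoly (Polynomial ℂ) x).natDegree = δ := by
      have h3 := minpoly.isIntegrallyClosed_eq_field_fractions ℂ⟮z⟯ K hxint
      rw [hx] at h3
      have h4 : (minpoly ℂ⟮z⟯ y).natDegree = δ := by
        rw [← IntermediateField.adjoin.finrank hyK, hgen, ← hδ]
        exact IntermediateField.finrank_top'
      rw [h3, (minpoly.monic hxint).natDegree_map] at h4
      exact h4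
    exact (Polynomial.eq_of_monic_of_dvd_of_natDegree_le (minpoly.monic hxint) hfm h1
      (by rw [hfd, h2])).symm
  have hadj : Algebra.adjoin ℂ⟮z⟯ {algebraMap (BB K) K x} = ⊤ := by
    rw [hx]
    have h1 := IntermediateField.adjoin_simple_toSubalgebra_of_isAlgebraic hyK.isAlgebraic
    rw [hgen] at h1
    rw [← h1]; rfl
  have hcond := conductor_mul_differentIdeal (Polynomial ℂ) ℂ⟮z⟯ K x hadj
  rw [hmin] at hcond
  have hmem : Polynomial.aeval x (Polynomial.derivative f) ∈ conductor (Polynomial ℂ) x := by
    have h1 : Polynomial.aeval x (Polynomial.derivative f) ∈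
        conductor (Polynomial ℂ) x * differentIdeal (Polynomial ℂ) (BB K) := by
      rw [hcond]; exact Ideal.mem_span_singleton_self _
    exact Ideal.mul_le_left h1
  have h2 := hmem b
  rw [Algebra.adjoin_singleton_eq_range_aeval] at h2
  obtain ⟨p, hp⟩ := h2
  have hp' : Polynomial.aeval x (p %ₘ f) = Polynomial.aeval x p := by
    rw [Polynomial.modByMonic_eq_sub_mul_div, map_sub, map_mul, hfx, zero_mul, sub_zero]
  have hδpos : 0 < δ := by rw [← hδ]; exact Module.finrank_pos
  have hdeg : (p %ₘ f).natDegree < δ := by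
    rw [← hfd]
    apply Polynomial.natDegree_modByMonic_lt _ hfm
    intro h
    rw [h, Polynomial.natDegree_one] at hfd
    omega
  refine ⟨fun j => (p %ₘ f).coeff j, ?_⟩
  have h3 : algebraMap (BB K) K (Polynomial.aeval x (p %ₘ f)) =
      algebraMap (BB K) K (Polynomial.aeval x (Polynomial.derivative f) * b) := by
    rw [hp']
    exact congrArg _ hp
  rw [map_mul, hb, ← Polynomial.aeval_algebraMap_apply, ← Polynomial.aeval_algebraMap_apply, hx] at h3
  have h4 : Polynomial.aeval y (Polynomial.derivative f) = ev z y (Polynomial.derivative f) := by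
    have h1 : (Polynomial.aeval z : Polynomial ℂ →ₐ[ℂ] K).toRingHom = algebraMap (Polynomial ℂ) K := by
      apply RingHom.ext
      intro p
      exact (hae p).symm
    change Polynomial.eval₂ (algebraMap (Polynomial ℂ) K) y _ = _
    rw [← h1]
    rfl
  rw [← h4, ← h3, Polynomial.aeval_eq_sum_range' hdeg, Finset.sum_range]
  refine Finset.sum_congr rfl fun j _ => ?_
  rw [Algebra.smul_def, hae]

end Pool.Agent.W358.PC
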