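import Pool.Agent.W770.PC.SphStms

set_option autoImplicit false

/-!
Norm equivalence for polynomials of one variable.
-/

open MeasureTheory Set Filter Topology

namespace Pool.Agent.W358.PC

open Pool.Agent.W770.PC

/-- polynomial with given coefficients -/
noncomputable def F (D : ℕ) (c : Fin (D + 1) → ℝ) (v : ℝ) : ℝ := ∑ i : Fin (D + 1), c i * v ^ (i : ℕ)

noncomputable def N (D : ℕ) (c : Fin (D + 1) → ℝ) : ℝ := ∫ v in (-1 : ℝ)..1, |F D c v|

theorem F_cont (D : ℕ) : Continuous (Function.uncurry fun (c : Fin (D + 1) → ℝ) v => |F D c v|) := by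
  unfold F Function.uncurry
  fun_prop

theorem N_cont (D : ℕ) : Continuous (N D) :=
  intervalIntegral.continuous_parametric_intervalIntegral_of_continuous' (F_cont D) (-1) 1

theorem N_nonneg (D : ℕ) (c : Fin (D + 1) → ℝ) : 0 ≤ N D c :=
  intervalIntegral.integral_nonneg (by norm_num) fun v _ => abs_nonneg _

theorem F_eval (D : ℕ) (c : Fin (D + 1) → ℝ) (v : ℝ) :
    F D c v = (∑ i : Fin (D + 1), Polynomial.C (c i) * Polynomial.X ^ (i : ℕ)).eval v := by
  rw [Polynomial.eval_finsetSum]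
  simp [F]

theorem N_pos (D : ℕ) (c : Fin (D + 1) → ℝ) (hc : c ≠ 0) : 0 < N D c := by
  rcases (N_nonneg D c).lt_or_eq with h | h
  · exact h
  exfalso
  apply hc
  have hcont : Continuous fun v => |F D c v| := by unfold F; fun_prop
  have hz : ∀ v ∈ Ioo (-1 : ℝ) 1, F D c v = 0 := by
    by_contra hcon
    push Not at hcon
    obtain ⟨v, hv, hv0⟩ := hcon
    have hpos : 0 < ∫ v in (-1 : ℝ)..1, |F D c v| := by
      refine intervalIntegral.integral_pos (by norm_num) hcont.continuousOn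
        (fun x _ => abs_nonneg _) ⟨v, ⟨hv.1.le, hv.2.le⟩, abs_pos.mpr hv0⟩
    exact absurd h hpos.ne
  have hp : (∑ i : Fin (D + 1), Polynomial.C (c i) * Polynomial.X ^ (i : ℕ)) = 0 := by
    refine Polynomial.eq_zero_of_infinite_isRoot _ ?_
    refine (Ioo_infinite (show (-1 : ℝ) < 1 by norm_num)).mono fun v hv => ?_
    have := hz v hv
    rw [F_eval] at this
    exact this
  funext i
  have h1 := congrArg (fun p => Polynomial.coeff p (i : ℕ)) hp
  simp only [Polynomial.finsetSum_coeff, Polynomial.coeff_C_mul, Polynomial.coeff_X_pow,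
    Polynomial.coeff_zero] at h1
  rw [Finset.sum_eq_single i] at h1
  · simpa using h1
  · intro j _ hj
    have : (i : ℕ) ≠ (j : ℕ) := fun h => hj (Fin.ext h.symm)
    simp [this]
  · intro h; exact absurd (Finset.mem_univ i) h

theorem F_smul (D : ℕ) (a : ℝ) (c : Fin (D + 1) → ℝ) (v : ℝ) : F D (a • c) v = a * F D c v := by
  unfold F
  rw [Finset.mul_sum]
  refine Finset.sum_congr rfl fun i _ => ?_
  simp; ring

theorem N_smul (D : ℕ) (a : ℝ) (c : Fin (D + 1) → ℝ) : N D (a • c) = |a| * N D c := by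
  unfold N
  rw [← intervalIntegral.integral_const_mul]
  refine intervalIntegral.integral_congr fun v _ => ?_
  simp only [F_smul, abs_mul]

theorem N_low (D : ℕ) : ∃ μ : ℝ, 0 < μ ∧ ∀ c : Fin (D + 1) → ℝ, μ * ‖c‖ ≤ N D c := by
  have hcomp : IsCompact (Metric.sphere (0 : Fin (D + 1) → ℝ) 1) := isCompact_sphere _ _
  have hne : (Metric.sphere (0 : Fin (D + 1) → ℝ) 1).Nonempty :=
    NormedSpace.sphere_nonempty.mpr zero_le_one
  obtain ⟨c0, hc0, hmin⟩ := hcomp.exists_isMinOn hne (N_cont D).continuousOn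
  have hc0' : c0 ≠ 0 := by
    rintro rfl
    rw [mem_sphere_zero_iff_norm, norm_zero] at hc0
    exact zero_ne_one hc0
  refine ⟨N D c0, N_pos D c0 hc0', fun c => ?_⟩
  by_cases hc : c = 0
  · subst hc
    rw [norm_zero, mul_zero]
    exact N_nonneg D 0
  · have hn : 0 < ‖c‖ := norm_pos_iff.mpr hc
    have h1 : ‖c‖⁻¹ • c ∈ Metric.sphere (0 : Fin (D + 1) → ℝ) 1 := by
      rw [mem_sphere_zero_iff_norm, norm_smul, norm_inv, norm_norm, inv_mul_cancel₀ hn.ne']
    have h2 : N D c0 ≤ N D (‖c‖⁻¹ • c) := hmin h1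
    rw [N_smul, abs_of_pos (inv_pos.mpr hn)] at h2
    calc N D c0 * ‖c‖ ≤ ‖c‖⁻¹ * N D c * ‖c‖ := mul_le_mul_of_nonneg_right h2 hn.le
      _ = N D c := by field_simp

/-- the base case -/
theorem base (D : ℕ) : ∃ C : ℝ, 0 ≤ C ∧ ∀ q : Polynomial ℝ, q.natDegree ≤ D → ∀ u : ℝ, |u| ≤ 16 →
    |q.eval u| ≤ C * ∫ v in (-1 : ℝ)..1, |q.eval v| ∧
    |q.derivative.eval u| ≤ C * ∫ v in (-1 : ℝ)..1, |q.eval v| := by
  obtain ⟨μ, hμ, hN⟩ := N_low D
  set K : ℝ := ∑ i ∈ Finset.range (D + 1), ((i : ℝ) + 1) * 16 ^ i with hK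
  have hK0 : 0 ≤ K := Finset.sum_nonneg fun i _ => by positivity
  refine ⟨K / μ, div_nonneg hK0 hμ.le, fun q hq u hu => ?_⟩
  set c : Fin (D + 1) → ℝ := fun i => q.coeff i with hc
  have hF : ∀ v, q.eval v = F D c v := by
    intro v
    rw [Polynomial.eval_eq_sum_range' (Nat.lt_succ_of_le hq), F, ← Fin.sum_univ_eq_sum_range
      (fun i => q.coeff i * v ^ i) (D + 1)]
  have hint : ∫ v in (-1 : ℝ)..1, |q.eval v| = N D c := by
    unfold N
    refine intervalIntegral.integral_congr fun v _ => ?_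
    simp only [hF]
  rw [hint]
  have hcn : ‖c‖ ≤ N D c / μ := by
    rw [le_div_iff₀ hμ, mul_comm]; exact hN c
  have hco : ∀ i, |q.coeff i| ≤ ‖c‖ := by
    intro i
    by_cases hi : i < D + 1
    · exact norm_le_pi_norm c ⟨i, hi⟩
    · rw [Polynomial.coeff_eq_zero_of_natDegree_lt (by omega), abs_zero]
      exact norm_nonneg _
  have hgoal : ∀ x : ℝ, x ≤ ‖c‖ * K → x ≤ K / μ * N D c := by
    intro x hx
    calc x ≤ ‖c‖ * K := hx
      _ ≤ N D c / μ * K := mul_le_mul_of_nonneg_right hcn hK0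
      _ = K / μ * N D c := by ring
  have hup : ∀ i : ℕ, |u| ^ i ≤ 16 ^ i := fun i => pow_le_pow_left₀ (abs_nonneg u) hu i
  constructor
  · apply hgoal
    rw [Polynomial.eval_eq_sum_range' (Nat.lt_succ_of_le hq), hK, Finset.mul_sum]
    refine (Finset.abs_sum_le_sum_abs _ _).trans (Finset.sum_le_sum fun i _ => ?_)
    rw [abs_mul, abs_pow]
    refine mul_le_mul (hco i) ?_ (by positivity) (norm_nonneg _)
    refine (hup i).trans ?_
    have : (0 : ℝ) ≤ i := Nat.cast_nonneg i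
    have h16 : (0 : ℝ) ≤ 16 ^ i := by positivity
    nlinarith
  · apply hgoal
    have hd : q.derivative.natDegree < D + 1 := by
      have := Polynomial.natDegree_derivative_le q
      omega
    rw [Polynomial.eval_eq_sum_range' hd, hK, Finset.mul_sum]
    refine (Finset.abs_sum_le_sum_abs _ _).trans (Finset.sum_le_sum fun i _ => ?_)
    rw [Polynomial.coeff_derivative, abs_mul, abs_mul, abs_pow]
    have hi : (0 : ℝ) ≤ i := Nat.cast_nonneg i
    rw [abs_of_nonneg (by linarith : (0 : ℝ) ≤ (i : ℝ) + 1), mul_assoc]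
    exact mul_le_mul (hco (i + 1)) (mul_le_mul_of_nonneg_left (hup i) (by linarith))
      (by positivity) (norm_nonneg _)

theorem poly1_thm : S_poly1 := by
  intro D
  obtain ⟨C, hC, hb⟩ := base D
  refine ⟨C, hC, fun q hq w ρ hρ u hu => ?_⟩
  set p : Polynomial ℝ := q.comp (Polynomial.C w + Polynomial.C ρ * Polynomial.X) with hp
  have hlin : (Polynomial.C w + Polynomial.C ρ * Polynomial.X : Polynomial ℝ).natDegree ≤ 1 := by
    compute_degree
  have hpd : p.natDegree ≤ D := by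
    rw [hp, Polynomial.natDegree_comp]
    calc q.natDegree * _ ≤ q.natDegree * 1 := Nat.mul_le_mul_left _ hlin
      _ ≤ D := by omega
  have hpe : ∀ v, p.eval v = q.eval (w + ρ * v) := by
    intro v; rw [hp, Polynomial.eval_comp]; simp
  have hpde : ∀ v, p.derivative.eval v = ρ * q.derivative.eval (w + ρ * v) := by
    intro v
    rw [hp, Polynomial.derivative_comp]
    simp [Polynomial.eval_comp]
  have hv : |(u - w) / ρ| ≤ 16 := by
    rw [abs_div, abs_of_pos hρ, div_le_iff₀ hρ]; exact hu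
  have huv : w + ρ * ((u - w) / ρ) = u := by field_simp; ring
  obtain ⟨h1, h2⟩ := hb p hpd ((u - w) / ρ) hv
  rw [hpe, huv] at h1
  rw [hpde, huv, abs_mul, abs_of_pos hρ] at h2
  have hint : ∫ v in (-1 : ℝ)..1, |p.eval v| = ρ⁻¹ * ∫ v in Icc (w - ρ) (w + ρ), |q.eval v| := by
    have h3 : ∫ v in (-1 : ℝ)..1, |p.eval v| = ∫ v in (-1 : ℝ)..1,
        (fun x => |q.eval x|) (w + ρ * v) := by
      refine intervalIntegral.integral_congr fun v _ => ?_
      simp only [hpe]
    have h4 := intervalIntegral.integral_comp_add_mul (a := (-1 : ℝ)) (b := 1)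
      (fun x => |q.eval x|) hρ.ne' w
    rw [h3, h4, smul_eq_mul]
    congr 1
    rw [integral_Icc_eq_integral_Ioc, ← intervalIntegral.integral_of_le (by linarith)]
    congr 1 <;> ring
  rw [hint] at h1 h2
  set J : ℝ := ∫ v in Icc (w - ρ) (w + ρ), |q.eval v| with hJ
  constructor
  · calc |q.eval u| ≤ C * (ρ⁻¹ * J) := h1
      _ = C / ρ * J := by ring
  · have h4 : |q.derivative.eval u| = ρ⁻¹ * (ρ * |q.derivative.eval u|) := by field_simp
    rw [h4]
    calc ρ⁻¹ * (ρ * |q.derivative.eval u|) ≤ ρ⁻¹ * (C * (ρ⁻¹ * J)) :=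
          mul_le_mul_of_nonneg_left h2 (by positivity)
      _ = C / ρ ^ 2 * J := by field_simp

end Pool.Agent.W358.PC
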