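import Pool.Agent.W518.PC.Stmts

/-!
# PC-T1, T2, T3, T4: the function `Θ`
-/

set_option autoImplicit false

namespace Pool.Agent.W358.PC

open Pool.Agent.W518.PC

section

variable {δ : ℕ}

theorem floor_eq (hδ : 3 ≤ δ) (j : ℤ) (α : ℝ) (h0 : 0 ≤ α) (h1 : α < δ) :
    ⌊((j : ℝ) * δ + α) / δ⌋ = j := by
  have hd : (0 : ℝ) < δ := by
    have : (3 : ℝ) ≤ δ := by exact_mod_cast hδ
    linarith
  rw [Int.floor_eq_iff]
  constructor
  · rw [le_div_iff₀ hd]; linarith
  · rw [div_lt_iff₀ hd]; nlinarith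

theorem decomp (hδ : 3 ≤ δ) (μ : ℝ) : ∃ (j : ℤ) (α : ℝ), 0 ≤ α ∧ α < δ ∧ μ = (j : ℝ) * δ + α := by
  have hd : (0 : ℝ) < δ := by
    have : (3 : ℝ) ≤ δ := by exact_mod_cast hδ
    linarith
  refine ⟨⌊μ / δ⌋, μ - ⌊μ / δ⌋ * δ, ?_, ?_, by ring⟩
  · have := Int.floor_le (μ / δ)
    rw [le_div_iff₀ hd] at this
    linarith
  · have := Int.lt_floor_add_one (μ / δ)
    rw [div_lt_iff₀ hd] at this
    linarith

theorem Th_low (hδ : 3 ≤ δ) (j : ℤ) (α : ℝ) (h0 : 0 ≤ α) (h1 : α < δ) (hj : j < -1) :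
    Th δ ((j : ℝ) * δ + α) = 0 := by
  unfold Th
  rw [floor_eq hδ j α h0 h1, if_pos hj]

theorem Th_mid (hδ : 3 ≤ δ) (j : ℤ) (α : ℝ) (h0 : 0 ≤ α) (h1 : α < δ) (hj : -1 ≤ j)
    (hj' : j ≤ (δ : ℤ) - 3) : Th δ ((j : ℝ) * δ + α) = ThP δ j α := by
  unfold Th
  rw [floor_eq hδ j α h0 h1, if_neg (by omega), if_neg (by omega)]
  congr 1
  ring

theorem Th_top (hδ : 3 ≤ δ) (j : ℤ) (α : ℝ) (h0 : 0 ≤ α) (h1 : α < δ)
    (hj' : (δ : ℤ) - 3 < j) :
    Th δ ((j : ℝ) * δ + α) = (j : ℝ) * δ + α + 1 - ((δ : ℝ) - 1) * (δ - 2) / 2 := by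
  unfold Th
  rw [floor_eq hδ j α h0 h1, if_neg (by omega), if_pos hj']

theorem ThP_zero (hδ : 3 ≤ δ) (j : ℤ) : ThP δ j 0 = ((j : ℝ) + 1) * (j + 2) / 2 := by
  have hd : (3 : ℝ) ≤ δ := by exact_mod_cast hδ
  unfold ThP
  have h1 : min 1 (((0 : ℝ) - 1) / (δ - 2)) ≤ 0 := by
    refine (min_le_right _ _).trans ?_
    rw [div_nonpos_iff]
    right
    constructor <;> linarith
  rw [max_eq_left h1, max_eq_left (by linarith : (0 : ℝ) - (δ - 1) ≤ 0)]
  ring

theorem ThP_delta (hδ : 3 ≤ δ) (j : ℤ) : ThP δ j δ = ((j : ℝ) + 2) * (j + 3) / 2 := by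
  have hd : (3 : ℝ) ≤ δ := by exact_mod_cast hδ
  unfold ThP
  have h1 : (1 : ℝ) ≤ ((δ : ℝ) - 1) / (δ - 2) := by
    rw [le_div_iff₀ (by linarith)]; linarith
  rw [min_eq_left h1, max_eq_right zero_le_one,
    max_eq_right (by linarith : (0 : ℝ) ≤ (δ : ℝ) - (δ - 1))]
  ring

theorem ThP_mono (hδ : 3 ≤ δ) (j : ℤ) (hj : -1 ≤ j) {α β : ℝ} (h : α ≤ β) :
    ThP δ j α ≤ ThP δ j β := by
  have hd : (3 : ℝ) ≤ δ := by exact_mod_cast hδ
  have hj' : (0 : ℝ) ≤ (j : ℝ) + 1 := by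
    have : (-1 : ℝ) ≤ j := by exact_mod_cast hj
    linarith
  unfold ThP
  have h1 : (α - 1) / ((δ : ℝ) - 2) ≤ (β - 1) / (δ - 2) :=
    div_le_div_of_nonneg_right (by linarith) (by linarith)
  have h2 : max 0 (min 1 ((α - 1) / ((δ : ℝ) - 2))) ≤ max 0 (min 1 ((β - 1) / (δ - 2))) :=
    max_le_max le_rfl (min_le_min le_rfl h1)
  have h3 : max 0 (α - ((δ : ℝ) - 1)) ≤ max 0 (β - (δ - 1)) :=
    max_le_max le_rfl (by linarith)
  have h4 := mul_le_mul_of_nonneg_left h2 hj'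
  linarith

theorem V_mono {j k : ℤ} (hj : -1 ≤ j) (hjk : j ≤ k) :
    ((j : ℝ) + 1) * (j + 2) / 2 ≤ ((k : ℝ) + 1) * (k + 2) / 2 := by
  have h1 : (-1 : ℝ) ≤ j := by exact_mod_cast hj
  have h2 : (j : ℝ) ≤ k := by exact_mod_cast hjk
  nlinarith

theorem top_ge (hδ : 3 ≤ δ) {j : ℤ} (hj : (δ : ℤ) - 3 < j) {α : ℝ} (h0 : 0 ≤ α) :
    (((δ : ℤ) - 2 : ℤ) + 1 : ℝ) * (((δ : ℤ) - 2 : ℤ) + 2) / 2 ≤
      (j : ℝ) * δ + α + 1 - ((δ : ℝ) - 1) * (δ - 2) / 2 := by
  have hd : (3 : ℝ) ≤ δ := by exact_mod_cast hδ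
  have h1 : ((δ : ℤ) - 2 : ℤ) ≤ j := by omega
  have h2 : ((δ : ℝ) - 2) ≤ j := by exact_mod_cast h1
  push_cast
  nlinarith

theorem nonneg (hδ : 3 ≤ δ) (μ : ℝ) : 0 ≤ Th δ μ := by
  obtain ⟨j, α, h0, h1, rfl⟩ := decomp hδ μ
  rcases lt_or_ge j (-1) with hj | hj
  · rw [Th_low hδ j α h0 h1 hj]
  · rcases lt_or_ge ((δ : ℤ) - 3) j with hj' | hj'
    · rw [Th_top hδ j α h0 h1 hj']
      refine le_trans ?_ (top_ge hδ hj' h0)
      have hd : (3 : ℝ) ≤ δ := by exact_mod_cast hδ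
      push_cast
      nlinarith
    · rw [Th_mid hδ j α h0 h1 hj hj']
      have h2 := ThP_mono hδ j hj h0
      rw [ThP_zero hδ] at h2
      refine le_trans ?_ h2
      have h3 : (-1 : ℝ) ≤ j := by exact_mod_cast hj
      nlinarith

theorem s_T1 : S_T1 := by
  intro δ hδ
  refine ⟨?_, nonneg hδ⟩
  have hd : (3 : ℝ) ≤ δ := by exact_mod_cast hδ
  intro μ μ' hμ
  obtain ⟨j, α, h0, h1, rfl⟩ := decomp hδ μ
  rcases lt_or_ge j (-1) with hj | hj
  · rw [Th_low hδ j α h0 h1 hj]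
    exact nonneg hδ μ'
  obtain ⟨j', α', h0', h1', rfl⟩ := decomp hδ μ'
  have hjj : j ≤ j' := by
    by_contra hcon
    push Not at hcon
    have h2 : (j' : ℝ) + 1 ≤ j := by exact_mod_cast hcon
    nlinarith
  rcases lt_or_ge ((δ : ℤ) - 3) j' with hj' | hj'
  · rw [Th_top hδ j' α' h0' h1' hj']
    rcases lt_or_ge ((δ : ℤ) - 3) j with hj2 | hj2
    · rw [Th_top hδ j α h0 h1 hj2]
      linarith
    · rw [Th_mid hδ j α h0 h1 hj hj2]
      have h2 := ThP_mono hδ j hj h1.le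
      rw [ThP_delta hδ] at h2
      refine h2.trans (le_trans ?_ (top_ge hδ hj' h0'))
      have h3 := V_mono (j := j + 1) (k := (δ : ℤ) - 2) (by omega) (by omega)
      push_cast at h3 ⊢
      linarith
  · rw [Th_mid hδ j α h0 h1 hj (by omega), Th_mid hδ j' α' h0' h1' (by omega) hj']
    rcases eq_or_lt_of_le hjj with h | h
    · subst h
      exact ThP_mono hδ j hj (by linarith)
    · have h2 := ThP_mono hδ j hj h1.le
      rw [ThP_delta hδ] at h2
      have h3 := V_mono (j := j + 1) (k := j') (by omega) (by omega)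
      have h4 := ThP_mono hδ j' (by omega) h0'
      rw [ThP_zero hδ] at h4
      push_cast at h3
      linarith

/-- the clamp identity -/
theorem clamp (hδ : 3 ≤ δ) (j : ℤ) (α : ℝ) :
    ThP δ j α = ThP δ ((δ : ℤ) - 4 - j) (δ - α) +
      ((j : ℝ) * δ + α + 1 - ((δ : ℝ) - 1) * (δ - 2) / 2) := by
  have hd : (3 : ℝ) ≤ δ := by exact_mod_cast hδ
  have hd2 : (0 : ℝ) < δ - 2 := by linarith
  unfold ThP
  have ha : max 0 (min 1 (((δ : ℝ) - α - 1) / (δ - 2))) =
      1 - max 0 (min 1 ((α - 1) / (δ - 2))) := by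
    have e : ((δ : ℝ) - α - 1) / (δ - 2) = 1 - (α - 1) / (δ - 2) := by
      field_simp; ring
    rw [e]
    set x := (α - 1) / ((δ : ℝ) - 2)
    rcases le_total x 0 with h | h
    · rw [min_eq_left (by linarith : (1 : ℝ) ≤ 1 - x), max_eq_right zero_le_one,
        min_eq_right (by linarith : x ≤ 1), max_eq_left h]
      ring
    · rcases le_total x 1 with h' | h'
      · rw [min_eq_right (by linarith : (1 : ℝ) - x ≤ 1), max_eq_right (by linarith),
          min_eq_right h', max_eq_right h]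
      · rw [min_eq_right (by linarith : (1 : ℝ) - x ≤ 1), max_eq_left (by linarith),
          min_eq_left h', max_eq_right zero_le_one]
        ring
  have hb : (δ - 2) * max 0 (min 1 ((α - 1) / ((δ : ℝ) - 2))) + max 0 (α - ((δ : ℝ) - 1)) -
      max 0 ((δ : ℝ) - α - (δ - 1)) = α - 1 := by
    rcases le_total α 1 with h | h
    · have h2 : (α - 1) / ((δ : ℝ) - 2) ≤ 0 := div_nonpos_of_nonpos_of_nonneg (by linarith) hd2.le
      rw [min_eq_right (by linarith), max_eq_left h2, max_eq_left (by linarith),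
        max_eq_right (by linarith)]
      ring
    · rcases le_total α ((δ : ℝ) - 1) with h' | h'
      · have h2 : 0 ≤ (α - 1) / ((δ : ℝ) - 2) := div_nonneg (by linarith) hd2.le
        have h3 : (α - 1) / ((δ : ℝ) - 2) ≤ 1 := by rw [div_le_one hd2]; linarith
        rw [min_eq_right h3, max_eq_right h2, max_eq_left (by linarith),
          max_eq_left (by linarith)]
        field_simp
        ring
      · have h3 : 1 ≤ (α - 1) / ((δ : ℝ) - 2) := by rw [le_div_iff₀ hd2]; linarith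
        rw [min_eq_left h3, max_eq_right zero_le_one, max_eq_right (by linarith),
          max_eq_left (by linarith)]
        ring
  rw [ha]
  push_cast
  linear_combination hb

theorem s_T2 : S_T2 := by
  intro δ hδ μ
  have hd : (3 : ℝ) ≤ δ := by exact_mod_cast hδ
  obtain ⟨j, α, h0, h1, rfl⟩ := decomp hδ μ
  rcases h0.eq_or_lt with h | h
  · subst h
    have e : (δ : ℝ) * (δ - 3) - ((j : ℝ) * δ + 0) = (((δ : ℤ) - 3 - j : ℤ) : ℝ) * δ + 0 := by
      push_cast; ring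
    rw [e]
    rcases lt_or_ge j (-1) with hj | hj
    · rw [Th_low hδ j 0 le_rfl (by linarith) hj,
        Th_top hδ _ 0 le_rfl (by linarith) (by omega)]
      push_cast
      ring
    · rcases lt_or_ge ((δ : ℤ) - 3) j with hj' | hj'
      · rw [Th_top hδ j 0 le_rfl (by linarith) hj']
        rcases lt_or_ge ((δ : ℤ) - 3 - j) (-1) with hj2 | hj2
        · rw [Th_low hδ _ 0 le_rfl (by linarith) hj2]
          ring
        · rw [Th_mid hδ _ 0 le_rfl (by linarith) hj2 (by omega), ThP_zero hδ]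
          have : j = (δ : ℤ) - 2 := by omega
          rw [this]
          push_cast
          ring
      · rw [Th_mid hδ j 0 le_rfl (by linarith) hj hj', ThP_zero hδ]
        rcases lt_or_ge ((δ : ℤ) - 3) ((δ : ℤ) - 3 - j) with hj2 | hj2
        · rw [Th_top hδ _ 0 le_rfl (by linarith) hj2]
          have : j = -1 := by omega
          rw [this]
          push_cast
          ring
        · rw [Th_mid hδ _ 0 le_rfl (by linarith) (by omega) hj2, ThP_zero hδ]
          push_cast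
          ring
  · have e : (δ : ℝ) * (δ - 3) - ((j : ℝ) * δ + α) =
        (((δ : ℤ) - 4 - j : ℤ) : ℝ) * δ + (δ - α) := by
      push_cast; ring
    rw [e]
    have h0' : 0 ≤ (δ : ℝ) - α := by linarith
    have h1' : (δ : ℝ) - α < δ := by linarith
    rcases lt_or_ge j (-1) with hj | hj
    · rw [Th_low hδ j α h.le h1 hj, Th_top hδ _ _ h0' h1' (by omega)]
      push_cast
      ring
    · rcases lt_or_ge ((δ : ℤ) - 3) j with hj' | hj'
      · rw [Th_top hδ j α h.le h1 hj', Th_low hδ _ _ h0' h1' (by omega)]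
        ring
      · rw [Th_mid hδ j α h.le h1 hj hj', Th_mid hδ _ _ h0' h1' (by omega) (by omega)]
        exact clamp hδ j α

theorem s_T3 : S_T3 := by
  intro δ hδ μ h0μ hμ
  have hd : (3 : ℝ) ≤ δ := by exact_mod_cast hδ
  obtain ⟨j, α, h0, h1, rfl⟩ := decomp hδ μ
  have hj0 : 0 ≤ j := by
    by_contra hcon
    have h2 : j + 1 ≤ 0 := by omega
    have h3 : (j : ℝ) + 1 ≤ 0 := by exact_mod_cast h2
    nlinarith
  have hj1 : j ≤ (δ : ℤ) - 3 := by
    by_contra hcon
    have h2 : (δ : ℤ) - 2 ≤ j := by omega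
    have h3 : (δ : ℝ) - 2 ≤ j := by exact_mod_cast h2
    nlinarith
  have e1 : (j : ℝ) * δ + α + δ = ((j + 1 : ℤ) : ℝ) * δ + α := by push_cast; ring
  have e2 : (j : ℝ) * δ + α - δ = ((j - 1 : ℤ) : ℝ) * δ + α := by push_cast; ring
  rw [e1, e2, Th_mid hδ j α h0 h1 (by omega) hj1, Th_mid hδ (j - 1) α h0 h1 (by omega) (by omega)]
  rcases eq_or_lt_of_le hj1 with h | h
  · have hj' : (j : ℝ) = δ - 3 := by
      rw [h]; push_cast; ring
    have hα : α = 0 := by
      rw [hj'] at hμ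
      nlinarith
    subst hα
    rw [Th_top hδ (j + 1) 0 h0 h1 (by omega), ThP_zero hδ, ThP_zero hδ]
    push_cast
    rw [hj']
    ring
  · rw [Th_mid hδ (j + 1) α h0 h1 (by omega) (by omega)]
    unfold ThP
    push_cast
    ring

/-- convexity of `Θ` on a piece -/
theorem ThP_le (hδ : 3 ≤ δ) (j : ℤ) (hj : -1 ≤ j) (hj' : j ≤ (δ : ℤ) - 3) (α : ℝ) (h0 : 0 ≤ α)
    (h1 : α ≤ δ) : ThP δ j α ≤ ((j : ℝ) + 1) * (j + 2) / 2 + (j + 2) * (α / δ) := by
  have hd : (3 : ℝ) ≤ δ := by exact_mod_cast hδ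
  have hd0 : (0 : ℝ) < δ := by linarith
  have hd2 : (0 : ℝ) < δ - 2 := by linarith
  have a1 : (-1 : ℝ) ≤ j := by exact_mod_cast hj
  have a2 : (j : ℝ) ≤ δ - 3 := by exact_mod_cast hj'
  unfold ThP
  rcases le_total α 1 with h | h
  · have h2 : (α - 1) / ((δ : ℝ) - 2) ≤ 0 := div_nonpos_of_nonpos_of_nonneg (by linarith) hd2.le
    rw [min_eq_right (by linarith), max_eq_left h2, max_eq_left (by linarith)]
    have : 0 ≤ ((j : ℝ) + 2) * (α / δ) := mul_nonneg (by linarith) (by positivity)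
    linarith
  · rcases le_total α ((δ : ℝ) - 1) with h' | h'
    · have h2 : 0 ≤ (α - 1) / ((δ : ℝ) - 2) := div_nonneg (by linarith) hd2.le
      have h3 : (α - 1) / ((δ : ℝ) - 2) ≤ 1 := by rw [div_le_one hd2]; linarith
      rw [min_eq_right h3, max_eq_right h2, max_eq_left (by linarith)]
      have key : ((j : ℝ) + 1) * ((α - 1) / (δ - 2)) ≤ (j + 2) * (α / δ) := by
        rw [← mul_div_assoc, ← mul_div_assoc, div_le_div_iff₀ hd2 hd0]
        -- linear in `α`
        have k1 : 0 ≤ ((δ : ℝ) - 2) * (δ - 2 - j) := mul_nonneg hd2.le (by linarith)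
        have k2 : 0 ≤ ((δ : ℝ) - 4 - 2 * j) + δ * (j + 1) ∨ True := Or.inr trivial
        rcases le_total 0 ((δ : ℝ) - 2 * j - 4) with hs | hs
        · nlinarith [mul_nonneg h0 hs, mul_nonneg hd0.le (show (0 : ℝ) ≤ j + 1 by linarith)]
        · nlinarith [mul_nonneg (show (0 : ℝ) ≤ (δ - 1) - α by linarith)
            (show (0 : ℝ) ≤ -((δ : ℝ) - 2 * j - 4) by linarith)]
      linarith
    · have h3 : 1 ≤ (α - 1) / ((δ : ℝ) - 2) := by rw [le_div_iff₀ hd2]; linarith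
      rw [min_eq_left h3, max_eq_right zero_le_one, max_eq_right (by linarith)]
      have key : ((j : ℝ) + 1) * 1 + (α - (δ - 1)) ≤ (j + 2) * (α / δ) := by
        rw [← mul_div_assoc, le_div_iff₀ hd0]
        nlinarith
      linarith

theorem s_T4 : S_T4 := by
  intro δ hδ7
  have hδ : 3 ≤ δ := by omega
  have hd : (7 : ℝ) ≤ δ := by exact_mod_cast hδ7
  have hd0 : (0 : ℝ) < δ := by linarith
  refine ⟨?_, ?_, ?_, ?_, ?_⟩
  · have h := Th_mid hδ 0 0 le_rfl hd0 (by omega) (by omega)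
    rw [ThP_zero hδ] at h
    norm_num at h
    exact h
  · have h := Th_mid hδ 1 0 le_rfl hd0 (by omega) (by omega)
    rw [ThP_zero hδ] at h
    norm_num at h
    exact h
  · have h := Th_mid hδ 2 0 le_rfl hd0 (by omega) (by omega)
    rw [ThP_zero hδ] at h
    norm_num at h
    exact h
  · have h := Th_mid hδ ((δ : ℤ) - 4) 0 le_rfl hd0 (by omega) (by omega)
    rw [ThP_zero hδ] at h
    have e : (((δ : ℤ) - 4 : ℤ) : ℝ) * δ + 0 = (δ : ℝ) * (δ - 4) := by push_cast; ring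
    rw [e] at h
    rw [h]
    push_cast
    nlinarith
  · intro μ h0μ hμ h2 h3
    obtain ⟨j, α, h0, h1, rfl⟩ := decomp hδ μ
    have hj0 : 0 ≤ j := by
      by_contra hcon
      have h2 : j + 1 ≤ 0 := by omega
      have h3 : (j : ℝ) + 1 ≤ 0 := by exact_mod_cast h2
      nlinarith
    have hj0' : (0 : ℝ) ≤ j := by exact_mod_cast hj0
    have hj1 : 2 * (j : ℝ) ≤ (δ : ℝ) - 3 := by
      have : (j : ℝ) * δ ≤ δ * (δ - 3) / 2 := by linarith
      nlinarith
    have hj1' : 2 * j ≤ (δ : ℤ) - 3 := by exact_mod_cast hj1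
    rw [Th_mid hδ j α h0 h1 (by omega) (by omega)] at h2 h3
    rcases Nat.lt_or_ge 0 j.toNat with hjp | hjz
    · have hj1p : 1 ≤ j := by omega
      have hj1r : (1 : ℝ) ≤ j := by exact_mod_cast hj1p
      have h4 := ThP_le hδ j (by omega) (by omega) α h0 h1.le
      set t : ℝ := α / δ with ht
      have ht0 : 0 ≤ t := by positivity
      have ht1 : t < 1 := by rw [ht, div_lt_one hd0]; exact h1
      have hα : α = t * δ := by rw [ht]; field_simp
      rw [hα] at h3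
      -- the main inequality
      have key : (1 - t) * ((j : ℝ) - 1) * (δ - j - 4) / 2 + t * j * (δ - j - 5) / 2 ≤ 0 := by
        rw [hα] at h4
        nlinarith
      rcases eq_or_lt_of_le hj1p with h | h
      · subst h
        norm_num at key
        have ht0' : t = 0 := by
          by_contra hne
          have : 0 < t := lt_of_le_of_ne ht0 (Ne.symm hne)
          nlinarith
        rw [hα, ht0']
        simp
      · exfalso
        have hj2 : 2 ≤ j := by omega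
        have hj2r : (2 : ℝ) ≤ j := by exact_mod_cast hj2
        have g1 : 0 < (1 - t) * ((j : ℝ) - 1) * (δ - j - 4) := by
          refine mul_pos (mul_pos (by linarith) (by linarith)) (by linarith)
        have g2 : 0 ≤ (δ : ℝ) - j - 5 := by
          have : 5 ≤ (δ : ℤ) - j := by omega
          have : (5 : ℝ) ≤ (δ : ℝ) - j := by exact_mod_cast this
          linarith
        have g3 : 0 ≤ t * j * ((δ : ℝ) - j - 5) := mul_nonneg (mul_nonneg ht0 hj0') g2
        linarith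
    · exfalso
      have hj : j = 0 := by omega
      subst hj
      have hd2 : (0 : ℝ) < δ - 2 := by linarith
      unfold ThP at h2 h3
      norm_num at h2 h3
      rcases lt_or_ge α ((δ : ℝ) - 1) with h' | h'
      · have h5 : (α - 1) / ((δ : ℝ) - 2) < 1 := by rw [div_lt_one hd2]; linarith
        have h6 : max 0 (min 1 ((α - 1) / ((δ : ℝ) - 2))) < 1 :=
          max_lt one_pos (lt_of_le_of_lt (min_le_right _ _) h5)
        have h7 : max 0 (α - ((δ : ℝ) - 1)) = 0 := max_eq_left (by linarith)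
        rw [h7] at h2
        linarith
      · have h5 : 1 ≤ (α - 1) / ((δ : ℝ) - 2) := by rw [le_div_iff₀ hd2]; linarith
        rw [min_eq_left h5, max_eq_right zero_le_one, max_eq_right (by linarith)] at h3
        linarith

end

end Pool.Agent.W358.PC
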